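import Pool.Agent.MP_3838e6_co.Main

set_option autoImplicit false

namespace Pool.Agent.Results.MP_3838e6_co.FourThirds

/-- For every `r ≥ 2` there is a finite connected graph with all degrees at least three, girth at
least `4 r` and diameter at most `3 r`. -/
theorem result : ∀ r : ℕ, 2 ≤ r →
    ∃ (V : Type) (_ : Fintype V) (G : SimpleGraph V) (_ : DecidableRel G.Adj),
      G.Connected ∧ (∀ v : V, 3 ≤ G.degree v) ∧ 4 * r ≤ G.girth ∧ G.diam ≤ 3 * r :=
  fun _ hr => Pool.Agent.MP_3838e6_co.main hr

end Pool.Agent.Results.MP_3838e6_co.FourThirds
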